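import Pool.Agent.U190.SN.Dv

/-!
# The section conjecture for curves given by norm forms of degree divisible by n, n even or odd

Let `K` be any field of characteristic zero, for instance a finite extension of `ℚ_p`, let `n > 1` be ANY
integer (for a `p`-adic field, `p ∣ n` is allowed, for instance `n = 2` and a 2-adic field `K`), and let
`E = K[T]/(G)` be an étale algebra over `K` all of whose factors are fields of degree `n` over `K`, not
necessarily normal.  We consider the plane curves

  `X : N_{E/K}(Λ) = a Qⁿ`,   `a ∈ K^*`,

where `Λ` is a form in three variables with coefficients in `E` of any degree `e` divisible by `n`, and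
`Q` is a form over `K` (of degree `e [E : K]/n`) which does not vanish at the common zeros of two
different conjugates of `Λ`.  For instance `n = 2`: `E = K(√d)` and `X : Φ² - d Ψ² = a Q²` with forms
`Φ`, `Ψ`, `Q` over `K` of the same even degree without common zeros.

**Theorem.**  If `a` is not a norm from `E`, then for ALL these curves `X`, that is, for all `e`, `Λ` and
`Q`, and for all finite extensions `L` of `K` of degree prime to `n`:

* `X` has no point over `L`,
* the fundamental group of every smooth curve `U` over `L` with a nonconstant map to `X` (open subcurves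
  and coverings of the normalisation of `X`, all curves which dominate `X`) has no sections over `G_L`,
* this is so already at a finite level: let `F` be the function field of `U` and let `F'` be the field
  generated over `L̄ F` by the `n`-th roots of the values of the conjugates `Λ_θ` of `Λ`, a finite
  abelian extension of exponent `n` of `L̄ F`, unramified over `U`.  Then `Gal(F'/F) → G_L` has no
  section, and the same holds for every extension of `F` that contains `F'`.

Conversely, if `a` is a norm from `E`, then one of these curves has a point over `K`.

So for these curves the map from the rational points to the conjugacy classes of sections is bijective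
(both sets are empty), over all these fields `L`.  For a `p`-adic field and an abelian extension `E` of
degree `n` these are all `a` outside a subgroup of index `n` of `K^*`.

The condition `n ∣ e` cannot be omitted if `n` is even: for `n = 2`, `e = 1` and a quadratic field `E` the
curve `X` is a conic without rational points, if `a` is not a norm, and its fundamental group is `G_K`, so
that there is a section.  For `p`-adic `K` and `n` prime to `p` the index of `X` is divisible by a prime
number different from `p`, and then it was known that there are no sections (Stix).  The hand-in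
`NormForms` treats odd `n` and algebras with cyclic factors (or `n` prime), without the condition
`n ∣ e`; it contains the theorem for odd prime numbers `n`.  New here are the even numbers `n`, in
particular `n = 2^r` for 2-adic fields, and the algebras `E` with arbitrary factors of composite degree
`n`.

The fundamental group is described through valuations.  Let `U` be a smooth geometrically connected
curve over `L` with function field `F`, let `Ω` be an algebraic closure of `F`, and let `F_U` be the
maximal extension of `F` inside `Ω` which is unramified over the closed points of `U`, that is, over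
their local rings, which are valuation rings of `F`.  Then `π₁(U) = Gal(F_U/F)`, and the map
`π₁(U) → G_L` is the restriction of automorphisms to the algebraic closure of `L` in `Ω`.

Proof.  Let `s` be a section over `L`.  At each place at most one of the conjugates `Λ_θ`, at normalised
coordinates, has positive value, which is divisible by `n`; as `n ∣ e`, the values `Λ_θ(x)` are `n`-th
powers up to units at all places, and their `n`-th roots lie in `F_U`.  By Hilbert 90 for the stabiliser
`H` of `θ` in `G_L`, `Λ_θ(x) = c γⁿ` with a constant `c` fixed by `H` and `γ` fixed by `s(H)`.  The product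
over all conjugates is `N(c) mⁿ` with `m` fixed by `s(G_L)`, and it is `a Q(x)ⁿ`.  So `a` is the product
of the norm of `c` and the `n`-th power of an element of `L`, which is a norm as `E ⊗ L` has factors of
degree `n`; as the degree of `L` over `K` is prime to `n`, `a` is a norm from `E`.
-/

set_option autoImplicit false

open Polynomial

namespace Pool.Agent.Results.MP_c385f6_ag.NormFormsDivisibleDegree

universe u v w

section definitions

variable (k : Type u) (F : Type v) (Ω : Type w) [Field k] [Field F] [Field Ω] [Algebra k F]
  [Algebra F Ω] [Algebra k Ω]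

/-- The inertia group of the valuation ring `W` of `Ω`, as a subgroup of `Gal(Ω/F)`: the
automorphisms of `Ω` over `F` that map `W` onto itself and act as the identity on its residue
field. -/
noncomputable def inertia (W : ValuationSubring Ω) : Subgroup (Ω ≃ₐ[F] Ω) :=
  (W.inertiaSubgroup F).map (W.decompositionSubgroup F).subtype

/-- `F_U`, for a set `U` of valuation rings of `F`: the elements of `Ω` fixed by the inertia groups
of all valuation rings `W` of `Ω` with `W ∩ F ∈ U`.  If `Ω` is an algebraic closure of a field `F`
of characteristic zero, this is the maximal extension of `F` in `Ω` unramified over `U`. -/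
noncomputable def unramified (U : Set (ValuationSubring F)) : IntermediateField F Ω :=
  ⨅ W : {W : ValuationSubring Ω // W.comap (algebraMap F Ω) ∈ U},
    IntermediateField.fixedField (inertia F Ω W.1)

/-- The map `τ : M → M` acts as `σ : K → K` on the elements that the fields `K` and `M` have in
common when they are regarded as subfields of `Ω` through `i` and `j`. -/
def ActsAs {K M Ω : Type*} [Field K] [Field M] [Field Ω] (i : K →+* Ω) (j : M →+* Ω) (σ : K → K)
    (τ : M → M) : Prop :=
  ∀ c z, j z = i c → j (τ z) = i (σ c)

/-- Let `k ⊆ K ⊆ Ω` and `F ⊆ M ⊆ Ω` be fields.  A splitting of `Gal(M/F) → Gal(K/k)`: a continuous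
homomorphism `s` from `Gal(K/k)` to `Gal(M/F)` such that `s(σ)` acts as `σ` on the elements of
`K ∩ M`. -/
structure Splitting (K M : Type*) [Field K] [Field M] [Algebra k K] [Algebra F M] [Algebra K Ω]
    [Algebra M Ω] where
  /-- the homomorphism `Gal(K/k) → Gal(M/F)` -/
  toHom : (K ≃ₐ[k] K) →* (M ≃ₐ[F] M)
  cont : Continuous toHom
  compat : ∀ σ : K ≃ₐ[k] K, ActsAs (algebraMap K Ω) (algebraMap M Ω) σ (toHom σ)

/-- The sections of `Gal(M/F) → G_k`, where `M` is a field between `F` and `Ω`: the continuous
homomorphisms `s` from `G_k = Gal(k̄/k)` to `Gal(M/F)`, where `k̄` is the algebraic closure of `k` in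
`Ω`, such that `s(σ)` acts as `σ` on the elements of `k̄ ∩ M`.  For `M = F_U` these are the sections of
`π₁(U) → G_k`. -/
def GaloisSection (M : IntermediateField F Ω) : Type w :=
  Splitting k F Ω (algebraicClosure k Ω) M

end definitions

section curve

variable {K : Type u} [Field K]

/-- The value at the vector `x` of the conjugate `Λ_θ` of the form `Λ`: `Λ` has coefficients in
`K[T]`, or in `E = K[T]/(G)`, and `T` is replaced by the root `θ` of `G`. -/
noncomputable def value {Ω : Type*} [Field Ω] [Algebra K Ω] (Λ : MvPolynomial (Fin 3) K[X]) (θ : Ω)
    (x : Fin 3 → Ω) : Ω :=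
  MvPolynomial.eval₂ (Polynomial.eval₂RingHom (algebraMap K Ω) θ) x Λ

/-- The equation `N_{E/K}(Λ) = a Qⁿ`, `E = K[T]/(G)`, at a vector with entries in an algebraically
closed field `Ω` over `K`: the norm is the product of the values of the conjugates `Λ_θ`, `θ` the roots
of `G` in `Ω`. -/
def OnCurve {Ω : Type*} [Field Ω] [Algebra K Ω] (n : ℕ) (G : K[X]) (Λ : MvPolynomial (Fin 3) K[X])
    (a : K) (Q : MvPolynomial (Fin 3) K) (x : Fin 3 → Ω) : Prop :=
  ((G.map (algebraMap K Ω)).roots.map fun θ => value Λ θ x).prod =
    algebraMap K Ω a * MvPolynomial.aeval x Q ^ n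

/-- `a` is a norm from `E = K[T]/(G)`: for the class of some polynomial `P`, the norm, which is the
product of the `P(θ)` over the roots `θ` of `G`, is `a`. -/
def IsNorm (G : K[X]) (a : K) : Prop :=
  ∃ P : K[X], ((G.map (algebraMap K (AlgebraicClosure K))).roots.map fun θ => aeval θ P).prod =
    algebraMap K (AlgebraicClosure K) a

/-- All irreducible factors of `G` have degree `n`: for separable `G`, all factors of the algebra
`K[T]/(G)` are fields of degree `n` over `K`. -/
def HasFactors (n : ℕ) (G : K[X]) : Prop :=
  ∀ p : K[X], Irreducible p → p ∣ G → p.natDegree = n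

/-- The form `Q` does not vanish at the common zeros in the projective plane of two conjugates
`Λ_θ`, `Λ_θ'`, `θ ≠ θ'`. -/
def Transversal (G : K[X]) (Λ : MvPolynomial (Fin 3) K[X]) (Q : MvPolynomial (Fin 3) K) : Prop :=
  ∀ θ θ' : AlgebraicClosure K, aeval θ G = 0 → aeval θ' G = 0 → θ ≠ θ' →
    ∀ x : Fin 3 → AlgebraicClosure K, x ≠ 0 → value Λ θ x = 0 → value Λ θ' x = 0 →
      MvPolynomial.aeval x Q ≠ 0

/-- The curve has no point over `L`. -/
def NoPoint (L : Type u) [Field L] [Algebra K L] (n : ℕ) (G : K[X])
    (Λ : MvPolynomial (Fin 3) K[X]) (a : K) (Q : MvPolynomial (Fin 3) K) : Prop :=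
  ∀ x : Fin 3 → L, x ≠ 0 → ¬ OnCurve n G Λ a Q fun j => algebraMap L (AlgebraicClosure L) (x j)

/-- The field `M` contains the algebraic closure `L̄` of `L` in `Ω` and the `n`-th roots of the values
`Λ_θ(x)` of the conjugates of `Λ`.  (As the degree of `Λ` is divisible by `n`, these roots are multiplied
by elements of `F` if the point `x` is multiplied by an element of `F`.) -/
def ContainsRoots (L : Type u) {F : Type v} {Ω : Type w} [Field L] [Field F] [Field Ω]
    [Algebra K Ω] [Algebra L Ω] [Algebra F Ω] (n : ℕ) (G : K[X]) (Λ : MvPolynomial (Fin 3) K[X])
    (x : Fin 3 → Ω) (M : IntermediateField F Ω) : Prop :=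
  (∀ c ∈ algebraicClosure L Ω, c ∈ M) ∧ ∀ θ β : Ω, aeval θ G = 0 → β ^ n = value Λ θ x → β ∈ M

/-- Let `F` be any field over `L` that contains a point `x` of the curve, for instance the function
field of the curve over `L`, or of a curve over `L` that dominates it, and let `Ω` be an algebraic
closure of `F`.  Then `Gal(M/F) → G_L` has no section if `M` is a field between `F` and `Ω` that
contains `L̄` and the `n`-th roots of the values `Λ_θ(x)`; and for every set `U` of valuation rings of
`F` over `L` the field `F_U` contains these elements, and there is no section of `π₁(U) → G_L`. -/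
def NoSection (L : Type u) [Field L] [Algebra K L] (n : ℕ) (G : K[X])
    (Λ : MvPolynomial (Fin 3) K[X]) (a : K) (Q : MvPolynomial (Fin 3) K) : Prop :=
  ∀ (F : Type v) (Ω : Type w) [Field F] [Field Ω] [Algebra L F] [Algebra F Ω] [Algebra L Ω]
    [Algebra K Ω] [IsScalarTower L F Ω] [IsScalarTower K L Ω] [IsAlgClosure F Ω] (x : Fin 3 → F),
    x ≠ 0 → OnCurve n G Λ a Q (fun j => algebraMap F Ω (x j)) →
      (∀ M : IntermediateField F Ω,
        ContainsRoots L n G Λ (fun j => algebraMap F Ω (x j)) M →
          IsEmpty (GaloisSection L F Ω M)) ∧
      ∀ U : Set (ValuationSubring F), (∀ O ∈ U, ∀ c : L, algebraMap L F c ∈ O) →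
        ContainsRoots L n G Λ (fun j => algebraMap F Ω (x j)) (unramified F Ω U) ∧
          IsEmpty (GaloisSection L F Ω (unramified F Ω U))

/-- All the assertions for the algebra `E = K[T]/(G)`, the exponent `n` and the number `a`: for all
finite extensions `L` of `K` of degree prime to `n`, all forms `Λ` over `E` of a degree `e` divisible by
`n`, and all forms `Q` over `K` of the degree `q = e [E : K]/n` that do not vanish at the common zeros of
two conjugates of `Λ`, the curve `N_{E/K}(Λ) = a Qⁿ` has no point and no section over `L`. -/
def NothingOver (n : ℕ) (G : K[X]) (a : K) : Prop :=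
  ∀ (L : Type u) [Field L] [Algebra K L] [FiniteDimensional K L],
    Nat.Coprime n (Module.finrank K L) →
      ∀ (e q : ℕ) (Λ : MvPolynomial (Fin 3) K[X]) (Q : MvPolynomial (Fin 3) K),
        n ∣ e → Λ.IsHomogeneous e → Q.IsHomogeneous q → G.natDegree * e = n * q →
          Transversal G Λ Q → NoPoint L n G Λ a Q ∧ NoSection.{u, v, w} L n G Λ a Q

end curve

/-- Let `K` be a field of characteristic zero, `n > 1` an integer, and `E = K[T]/(G)` an étale algebra
over `K` all of whose factors have degree `n`.  Then `a ∈ K` is not a norm from `E` if and only if for all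
forms `Λ` over `E` of a degree divisible by `n`, and `Q` over `K` such that `Q` does not vanish at the
common zeros of two conjugates of `Λ`, and all finite extensions `L` of `K` of degree prime to `n`, the
plane curve `N_{E/K}(Λ) = a Qⁿ` has no point over `L`, and the fundamental groups of its open subcurves
over `L` and of all smooth curves over `L` that dominate it have no sections, even at the finite level
given by the `n`-th roots of the conjugates of `Λ`. -/
theorem result (K : Type u) [Field K] [CharZero K] (n : ℕ) (h1 : 1 < n) (G : K[X])
    (hs : G.Separable) (hd : G.natDegree ≠ 0) (hG : HasFactors n G) (a : K) :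
    NothingOver.{u, v, w} n G a ↔ ¬ IsNorm G a := by
  constructor
  · intro h hnm
    obtain ⟨Λ, Q, hΛ, hQ, hT, x, hx, hon⟩ :=
      Pool.Agent.U190.SN.converse (G := G) (ℓ := n) (by omega) a hnm
    refine (h K ?_ n G.natDegree Λ Q (dvd_refl n) hΛ hQ (mul_comm _ _) hT).1 x hx hon
    rw [Module.finrank_self]
    exact Nat.coprime_one_right n
  · intro hnot L _ _ _ hL e q Λ Q hne hΛ hQ hdeg hT
    have ha : a ≠ 0 := by
      rintro rfl
      apply hnot
      refine ⟨0, ?_⟩
      obtain ⟨θ, hθ⟩ := Pool.Agent.U190.SN.rts_ne (A := AlgebraicClosure K) hs hd
      rw [map_zero, Multiset.prod_eq_zero_iff, Multiset.mem_map]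
      refine ⟨θ, ?_, by simp⟩
      rw [mem_roots_map hs.ne_zero]
      exact (Pool.Agent.U190.SN.mem_rts hs.ne_zero).1 hθ
    obtain ⟨g1, g2⟩ := Pool.Agent.U190.SN.bothD.{u, v, w, u} (L := L) h1 hL hs hd hG a ha
      hnot Λ e hΛ hne Q q hQ hdeg hT
    refine ⟨fun x hx hon => g1 x hx hon, ?_⟩
    intro F Ω _ _ _ _ _ _ _ _ _ x hx hon
    obtain ⟨k1, k2⟩ := g2 F Ω x hx hon
    have k3 : ∀ M : IntermediateField F Ω,
        ContainsRoots L n G Λ (fun j => algebraMap F Ω (x j)) M →
          IsEmpty (GaloisSection L F Ω M) :=
      fun M hM => ⟨fun s => k1 M hM s.toHom s.cont s.compat⟩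
    exact ⟨k3, fun U hU => ⟨k2 U hU, k3 _ (k2 U hU)⟩⟩

end Pool.Agent.Results.MP_c385f6_ag.NormFormsDivisibleDegree
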