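import Pool.Agent.U190.SN.SEB

/-!
# The section conjecture for superelliptic curves given by norms, over any field of characteristic zero

Let `K` be any field of characteristic zero, for instance a finite extension of `ℚ_p`, let `n > 1` be an
odd number (for a `p`-adic field, `p ∣ n` is allowed, for instance `n = p`), and let `E = K[T]/(G)` be an
étale algebra over `K` all of whose factors are fields of degree `n` over `K`, which are cyclic extensions
of `K` if `n` is not a prime number. We consider the superelliptic curves

  `X : a yⁿ = N_{E/K}(g(x))`,   `a ∈ K^*`,

where `g(x)` is a polynomial of any degree with coefficients in `E` whose leading coefficient is a unit of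
`E`, and whose conjugates are pairwise coprime; the roots of `g` may be multiple. For instance `E` is a
cyclic extension of degree `n` and `f(x) = N_{E/K}(g(x))` is any polynomial which is the norm of a
polynomial prime to its conjugates, such as an irreducible polynomial `f` with a root in an extension of
`E`, or a product of such polynomials: `X` is the curve `a yⁿ = f(x)`, of arbitrarily large genus.

**Theorem.**  If `a` is not a norm from `E`, then for ALL these curves `X`, that is, for all `g`, and for
all finite extensions `L` of `K` of degree prime to `n`:

* `X` has no point over `L`, and the smooth projective model of `X` has no point over `L` above `x = ∞`,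
* the fundamental group of every smooth curve `U` over `L` with a nonconstant map to `X` (open subcurves
  and coverings of the smooth model of `X`, all curves which dominate `X`) has no sections over `G_L`,
* this is so already at a finite level: let `F` be the function field of `U` and let `F'` be the field
  generated over `L̄ F` by the `n`-th roots of the quotients `g_θ(x)/g_θ'(x)` of the conjugates of `g(x)`,
  a finite abelian extension of exponent `n` of `L̄ F`, unramified over `U`.  Then `Gal(F'/F) → G_L` has
  no section, and the same holds for every extension of `F` that contains `F'`.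

Conversely, if `a` is a norm from `E`, then one of these curves has a point over `K`.

So for these curves the map from the rational points to the conjugacy classes of sections is bijective
(both sets are empty), over all these fields `L`. For a finite extension `K` of `ℚ_p` and a cyclic
extension `E` of degree `n` these are all `a` outside a subgroup of index `n` of `K^*`, so that the
section conjecture holds for the proportion `1 - 1/n` of the twists of each of these curves.

The starting hand-ins `ProEllSections`, `TwistsByRotations` and others of this problem treat the curves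
`d y^ℓ = f(x)` over `p`-adic fields for a prime number `ℓ ≠ p`, under conditions on the reduction; for
`n` prime to `p` the index of `X` is divisible by a prime number different from `p`, and then it was known
that there are no sections (Stix). For `p ∣ n` nothing of this kind is applicable. The hand-in
`NormForms` treats the smooth or singular plane curves `N_{E/K}(Λ) = a Qⁿ`, `Λ`, `Q` forms in three
variables; the smooth models of the curves here are different (the variable `y` has weight
`deg(f)/n` in the homogeneous equation). The norm principle of `U190.SN.Key` and `U190.SN.Nm` is the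
same. The norm principle of the starting library `W620.SC` requires that each `g_θ(x)` is an `n`-th power
up to units at all places, that is `n ∣ deg g`.

The fundamental group is described through valuations.  Let `U` be a smooth geometrically connected
curve over `L` with function field `F`, let `Ω` be an algebraic closure of `F`, and let `F_U` be the
maximal extension of `F` inside `Ω` which is unramified over the closed points of `U`, that is, over
their local rings, which are valuation rings of `F`.  Then `π₁(U) = Gal(F_U/F)`, and the map
`π₁(U) → G_L` is the restriction of automorphisms to the algebraic closure of `L` in `Ω`.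

Proof.  Let `s` be a section over `L`.  If `n` is a prime number we replace `G_L` by a subgroup `Γ` of
finite index prime to `n` which acts on the roots `θ` of `G` through an `n`-group.  Then the stabiliser
`H` of `θ` in `Γ` is normal in `Γ`, and `Γ/H` is cyclic of order `n`, generated by some `τ`.  At a place
with `x ≠ ∞` at most one of the `g_θ(x)` has positive value, as the conjugates are coprime, and this value
is divisible by `n` by the equation; at a place with `x = ∞` the quotients `g_θ(x)/g_θ'(x)` are units.  So
`λ/s(τ)λ`, `λ = g_θ(x)`, has an `n`-th root in `F_U`; by Hilbert 90 it is `c γⁿ` with a constant `c` fixed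
by `H` and `γ` fixed by `s(H)`.  The product of the conjugates of `γ` is a constant `ε` fixed by `Γ`, and
the norm of `c ε` is 1, so that `c ε = b/τ(b)`.  For `μ = λ/b` we have `s(τ)μ = μ ε/γⁿ`, and so the
product of the conjugates of `μ` is `δⁿ` with `δ` fixed by `s(H)`, as `n` is odd.  Now `s(τ)δ/δ = ζ` is an
`n`-th root of unity of norm 1, `ζ = ε'/τ(ε')`, the function `m = δ ε'` is fixed by `s(Γ)`, and
`N(ε') = ε'ⁿ` (a computation with the action of `τ` on roots of unity, `n` odd).  So the product of the
conjugates of `λ` is `N(b/ε') mⁿ`.  The product over the orbits is `a yⁿ`, and so `a` is a norm for `Γ`;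
as the index of `Γ` in `G_K` is prime to `n`, it is a norm from `E`.
-/

set_option autoImplicit false

open Polynomial

namespace Pool.Agent.Results.MP_c385f6_ag.SuperellipticNorms

universe u v w

section definitions

variable (k : Type u) (F : Type v) (Ω : Type w) [Field k] [Field F] [Field Ω] [Algebra k F]
  [Algebra F Ω] [Algebra k Ω]

/-- The inertia group of the valuation ring `W` of `Ω`, as a subgroup of `Gal(Ω/F)`: the
automorphisms of `Ω` over `F` that map `W` onto itself and act as the identity on its residue
field. -/
noncomputable def inertia (W : ValuationSubring Ω) : Subgroup (Ω ≃ₐ[F] Ω) :=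
  (W.inertiaSubgroup F).map (W.decompositionSubgroup F).subtype

/-- `F_U`, for a set `U` of valuation rings of `F`: the elements of `Ω` fixed by the inertia groups
of all valuation rings `W` of `Ω` with `W ∩ F ∈ U`.  If `Ω` is an algebraic closure of a field `F`
of characteristic zero, this is the maximal extension of `F` in `Ω` unramified over `U`. -/
noncomputable def unramified (U : Set (ValuationSubring F)) : IntermediateField F Ω :=
  ⨅ W : {W : ValuationSubring Ω // W.comap (algebraMap F Ω) ∈ U},
    IntermediateField.fixedField (inertia F Ω W.1)

/-- The map `τ : M → M` acts as `σ : K → K` on the elements that the fields `K` and `M` have in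
common when they are regarded as subfields of `Ω` through `i` and `j`. -/
def ActsAs {K M Ω : Type*} [Field K] [Field M] [Field Ω] (i : K →+* Ω) (j : M →+* Ω) (σ : K → K)
    (τ : M → M) : Prop :=
  ∀ c z, j z = i c → j (τ z) = i (σ c)

/-- Let `k ⊆ K ⊆ Ω` and `F ⊆ M ⊆ Ω` be fields.  A splitting of `Gal(M/F) → Gal(K/k)`: a continuous
homomorphism `s` from `Gal(K/k)` to `Gal(M/F)` such that `s(σ)` acts as `σ` on the elements of
`K ∩ M`. -/
structure Splitting (K M : Type*) [Field K] [Field M] [Algebra k K] [Algebra F M] [Algebra K Ω]
    [Algebra M Ω] where
  /-- the homomorphism `Gal(K/k) → Gal(M/F)` -/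
  toHom : (K ≃ₐ[k] K) →* (M ≃ₐ[F] M)
  cont : Continuous toHom
  compat : ∀ σ : K ≃ₐ[k] K, ActsAs (algebraMap K Ω) (algebraMap M Ω) σ (toHom σ)

/-- The sections of `Gal(M/F) → G_k`, where `M` is a field between `F` and `Ω`: the continuous
homomorphisms `s` from `G_k = Gal(k̄/k)` to `Gal(M/F)`, where `k̄` is the algebraic closure of `k` in
`Ω`, such that `s(σ)` acts as `σ` on the elements of `k̄ ∩ M`.  For `M = F_U` these are the sections of
`π₁(U) → G_k`. -/
def GaloisSection (M : IntermediateField F Ω) : Type w :=
  Splitting k F Ω (algebraicClosure k Ω) M

end definitions

section curve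

variable {K : Type u} [Field K]

/-- The value `g_θ(x)` at `x` of the conjugate `g_θ` of the polynomial `g`: `g` has coefficients in
`K[T]`, or in `E = K[T]/(G)`, and `T` is replaced by the root `θ` of `G`. -/
noncomputable def value {Ω : Type*} [Field Ω] [Algebra K Ω] (g : K[X][X]) (θ x : Ω) : Ω :=
  g.eval₂ (Polynomial.eval₂RingHom (algebraMap K Ω) θ) x

/-- The equation `a yⁿ = N_{E/K}(g(x))`, `E = K[T]/(G)`, for `x` and `y` in an algebraically closed
field `Ω` over `K`: the norm is the product of the `g_θ(x)` over the roots `θ` of `G` in `Ω`. -/
def OnCurve {Ω : Type*} [Field Ω] [Algebra K Ω] (n : ℕ) (G : K[X]) (g : K[X][X]) (a : K)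
    (x y : Ω) : Prop :=
  algebraMap K Ω a * y ^ n = ((G.map (algebraMap K Ω)).roots.map fun θ => value g θ x).prod

/-- `a` is a norm from `E = K[T]/(G)`: for the class of some polynomial `P`, the norm, which is the
product of the `P(θ)` over the roots `θ` of `G`, is `a`. -/
def IsNorm (G : K[X]) (a : K) : Prop :=
  ∃ P : K[X], ((G.map (algebraMap K (AlgebraicClosure K))).roots.map fun θ => aeval θ P).prod =
    algebraMap K (AlgebraicClosure K) a

/-- All irreducible factors of `G` have degree `n`, and `n` is a prime number or their Galois groups
are cyclic: for separable `G`, all factors of the algebra `K[T]/(G)` are fields of degree `n` over `K`,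
which are cyclic extensions of `K` if `n` is not a prime number. -/
def HasFactors (n : ℕ) (G : K[X]) : Prop :=
  (∀ p : K[X], Irreducible p → p ∣ G → p.natDegree = n) ∧
    (n.Prime ∨ ∀ p : K[X], Irreducible p → p ∣ G → IsCyclic p.Gal)

/-- The leading coefficient of `g` is a unit of `E = K[T]/(G)`: it does not vanish at the roots of
`G`. -/
def HasUnitLeadingCoeff (G : K[X]) (g : K[X][X]) : Prop :=
  ∀ θ : AlgebraicClosure K, aeval θ G = 0 → aeval θ g.leadingCoeff ≠ 0

/-- The conjugates `g_θ` of `g` are pairwise coprime: they have no common root. -/
def HasCoprimeConjugates (G : K[X]) (g : K[X][X]) : Prop :=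
  ∀ θ θ' : AlgebraicClosure K, aeval θ G = 0 → aeval θ' G = 0 → θ ≠ θ' →
    ∀ x : AlgebraicClosure K, value g θ x = 0 → value g θ' x ≠ 0

/-- The smooth projective model of the curve has no point over `L`: there are no `x, y ∈ L` with
`a yⁿ = N(g(x))`, and no `z ∈ L` with `a zⁿ = N(c)`, `c` the leading coefficient of `g` (these `z`
are the points over `L` above `x = ∞`; the singular points with `y = 0` would have `N(g(x)) = 0`). -/
def NoPoint (L : Type u) [Field L] [Algebra K L] (n : ℕ) (G : K[X]) (g : K[X][X]) (a : K) : Prop :=
  (∀ x y : L, ¬ OnCurve n G g a (algebraMap L (AlgebraicClosure L) x)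
    (algebraMap L (AlgebraicClosure L) y)) ∧
  ∀ z : L, algebraMap K (AlgebraicClosure L) a * algebraMap L (AlgebraicClosure L) z ^ n ≠
    ((G.map (algebraMap K (AlgebraicClosure L))).roots.map fun θ => aeval θ g.leadingCoeff).prod

/-- The field `M` contains the algebraic closure `L̄` of `L` in `Ω` and the `n`-th roots of all
quotients `g_θ(x)/g_θ'(x)`.  (The smallest such field is a finite abelian extension of exponent `n` of
`L̄ F`.) -/
def ContainsRoots (L : Type u) {F : Type v} {Ω : Type w} [Field L] [Field F] [Field Ω]
    [Algebra K Ω] [Algebra L Ω] [Algebra F Ω] (n : ℕ) (G : K[X]) (g : K[X][X]) (x : Ω)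
    (M : IntermediateField F Ω) : Prop :=
  (∀ c ∈ algebraicClosure L Ω, c ∈ M) ∧ ∀ θ θ' β : Ω, aeval θ G = 0 → aeval θ' G = 0 →
    value g θ' x ≠ 0 → β ^ n * value g θ' x = value g θ x → β ∈ M

/-- Let `F` be any field over `L` that contains a point `(x, y)` of the curve, for instance the
function field of the curve over `L`, or of a curve over `L` that dominates it, and let `Ω` be an
algebraic closure of `F`.  Then `Gal(M/F) → G_L` has no section if `M` is a field between `F` and `Ω`
that contains `L̄` and the `n`-th roots of the quotients `g_θ(x)/g_θ'(x)`; and for every set `U` of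
valuation rings of `F` over `L` the field `F_U` contains these elements, and there is no section of
`π₁(U) → G_L`. -/
def NoSection (L : Type u) [Field L] [Algebra K L] (n : ℕ) (G : K[X]) (g : K[X][X]) (a : K) :
    Prop :=
  ∀ (F : Type v) (Ω : Type w) [Field F] [Field Ω] [Algebra L F] [Algebra F Ω] [Algebra L Ω]
    [Algebra K Ω] [IsScalarTower L F Ω] [IsScalarTower K L Ω] [IsAlgClosure F Ω] (x y : F),
    OnCurve n G g a (algebraMap F Ω x) (algebraMap F Ω y) →
      (∀ M : IntermediateField F Ω,
        ContainsRoots L n G g (algebraMap F Ω x) M → IsEmpty (GaloisSection L F Ω M)) ∧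
      ∀ U : Set (ValuationSubring F), (∀ O ∈ U, ∀ c : L, algebraMap L F c ∈ O) →
        ContainsRoots L n G g (algebraMap F Ω x) (unramified F Ω U) ∧
          IsEmpty (GaloisSection L F Ω (unramified F Ω U))

/-- All the assertions for the algebra `E = K[T]/(G)`, the exponent `n` and the number `a`: for all
finite extensions `L` of `K` of degree prime to `n` and all polynomials `g` over `E` whose leading
coefficient is a unit and whose conjugates are coprime, the curve `a yⁿ = N_{E/K}(g(x))` has no point
and no section over `L`. -/
def NothingOver (n : ℕ) (G : K[X]) (a : K) : Prop :=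
  ∀ (L : Type u) [Field L] [Algebra K L] [FiniteDimensional K L],
    Nat.Coprime n (Module.finrank K L) →
      ∀ g : K[X][X], HasUnitLeadingCoeff G g → HasCoprimeConjugates G g →
        NoPoint L n G g a ∧ NoSection.{u, v, w} L n G g a

end curve

/-- Let `K` be a field of characteristic zero, `n > 1` an odd number, and `E = K[T]/(G)` an étale
algebra over `K` all of whose factors have degree `n`, and are cyclic if `n` is not a prime number.
Then `a ∈ K^*` is not a norm from `E` if and only if for all polynomials `g` over `E` whose leading
coefficient is a unit and whose conjugates are pairwise coprime, and for all finite extensions `L` of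
`K` of degree prime to `n`, the superelliptic curve `a yⁿ = N_{E/K}(g(x))` has no point over `L`, also
at infinity, and the fundamental groups of its open subcurves over `L` and of all smooth curves over
`L` that dominate it have no sections, even at the finite level given by the `n`-th roots of the
quotients of the conjugates of `g(x)`. -/
theorem result (K : Type u) [Field K] [CharZero K] (n : ℕ) (hn : Odd n) (h1 : 1 < n) (G : K[X])
    (hs : G.Separable) (hd : G.natDegree ≠ 0) (hG : HasFactors n G) (a : K) (ha : a ≠ 0) :
    NothingOver.{u, v, w} n G a ↔ ¬ IsNorm G a := by
  constructor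
  · intro h hnm
    obtain ⟨g, hlc, hcop, hon⟩ := Pool.Agent.U190.SN.converse1 (n := n) hs a ha hnm
    refine (h K ?_ g hlc hcop).1.1 0 1 hon.symm
    rw [Module.finrank_self]
    exact Nat.coprime_one_right n
  · intro hnot L _ _ _ hL g hlc hcop
    obtain ⟨g1, g2, g3⟩ := Pool.Agent.U190.SN.both1.{u, v, w, u} (L := L) h1 hn hL hs hd hG.1 hG.2
      a ha hnot g hlc hcop
    refine ⟨⟨fun x y hon => g1 x y hon.symm, fun z h => g2 z h.symm⟩, ?_⟩
    intro F Ω _ _ _ _ _ _ _ _ _ x y hon
    obtain ⟨k1, k2⟩ := g3 F Ω x y hon.symm
    have k3 : ∀ M : IntermediateField F Ω,
        ContainsRoots L n G g (algebraMap F Ω x) M → IsEmpty (GaloisSection L F Ω M) :=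
      fun M hM => ⟨fun s => k1 M hM s.toHom s.cont s.compat⟩
    exact ⟨k3, fun U hU => ⟨k2 U hU, k3 _ (k2 U hU)⟩⟩

end Pool.Agent.Results.MP_c385f6_ag.SuperellipticNorms
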