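import Pool.Agent.U36.TS.All4
import Pool.Agent.U36.SC.Sec

/-!
# The tame ramification of units at sections of fundamental groups

Let `K` be a `p`-adic field, or any field of characteristic zero with a valuation ring `V` of the
algebraic closure `B` whose residue characteristic is `p`, for example a number field and a place above
`p`. Let `U` be a curve over `K` with function field `F`, given by the valuation rings of its closed
points, `M` the maximal extension of `F` which is unramified over `U`, so that `Gal(M/F) = π₁(U)`, or any
algebraic extension of `F` which contains all roots of order a power of `l` of its units over `U`, such as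
the maximal geometrically pro-`l` extension unramified over `U`, and let `z` be a unit over `U` such that
`1 - z` is a unit too, that is, a map from `U`, or from a finite étale covering, to the projective line
minus `0, 1, ∞`.

Let `s` be any section of `Gal(M/F) → Gal(B/K)` with `s(g) z = z` for all `g`. No local or birational
hypothesis is made. Let `l ≠ p` be a prime number, `t` an element of the inertia group of `V` and `f` a
Frobenius element. Then `s(t)` acts on the `l ^ m`-th roots of `z` and of `1 - z` as multiplication with
`θ_m ^ a` and `θ_m ^ b`, where `θ_m` are compatible roots of unity and `a, b` are `l`-adic integers; if the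
section comes from a point with values in `K`, then `a, b` are the valuations of `z` and `1 - z` at the
point. The theorem says that every section has one of the four types of the points: `a = b = 0`
(integral), `a ≠ 0` and `b = 0` (near `0`), `a = 0` and `b ≠ 0` (near `1`), `a = b ≠ 0` (near `∞`). In the last
three cases `1 - z`, `z`, `1 - 1/z` have, for every `k`, an `l ^ k`-th root fixed by `s(t)` and `s(f)`, like
elements congruent to `1`.

Proof. Let `y ^ (l ^ m) = z`, `a = l ^ r α`. The functions `1 - ζ y`, where `ζ` runs through the `l ^ m`-th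
roots of unity, are units, and `s(t)` permutes them. Let `S = s(t) ^ (l ^ (m - r))`, which fixes them, and let
`S` act with the exponent `j` on the roots of `1 - y`. The `l ^ N`-th roots `x` of the quotient
`s(t)(1 - y) / (1 - y)` are fixed by `S`, and are multiplied by a power of a Frobenius element with a root
of unity whose order is determined by `j`. It permutes the units `1 - ζ x`, whose product is the unit
`(ζ' - 1) y / (1 - y)` with the exponent `α - j`. So the order divides `α - j`, and `j` is `0` or `α` modulo
`l ^ (m - r)`. As `b` is a sum of `l ^ r` such numbers, the theorem follows for `m → ∞`.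
-/

set_option autoImplicit false

open Pool.Agent.TH954

namespace Pool.Agent.Results.MP_c385f6_ag.TameRamificationOfSections

/-- `z` is a unit over the curve with the valuation rings `U`: a unit of every valuation ring of `M`
above an element of `U`. -/
def UnitOver {F M : Type} [Field F] [Field M] [Algebra F M] (U : Set (ValuationSubring F)) (z : M) :
    Prop :=
  ∀ W : ValuationSubring M, W.comap (algebraMap F M) ∈ U → z ∈ W ∧ z⁻¹ ∈ W

/-- `M` contains all roots of order a power of `l` of its units over the curve with the valuation rings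
`U` -/
def RootClosed {F : Type} (l : ℕ) (M : Type) [Field F] [Field M] [Algebra F M]
    (U : Set (ValuationSubring F)) : Prop :=
  ∀ a : M, a ≠ 0 → UnitOver U a → ∀ m : ℕ, ∃ w : M, w ^ l ^ m = a

/-- `t` is in the inertia group of the valuation ring `V` -/
def Inertia {K B : Type} [Field K] [Field B] [Algebra K B] (V : ValuationSubring B)
    (t : B ≃ₐ[K] B) : Prop :=
  ∀ x ∈ V, t x - x ∈ V.nonunits

/-- `f` is a Frobenius element of the valuation ring `V`: it induces `x ↦ x ^ q` on the residue field -/
def Frob {K B : Type} [Field K] [Field B] [Algebra K B] (V : ValuationSubring B) (q : ℕ)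
    (f : B ≃ₐ[K] B) : Prop :=
  ∀ x ∈ V, f x - x ^ q ∈ V.nonunits

/-- `s(t)` acts on the `l ^ m`-th roots of `z` as the multiplication with `θ_m ^ a`, for the `l`-adic
integer `a` and all `m` -/
def ActsBy {K F M B : Type} [Field K] [Field F] [Field M] [Field B] [Algebra F M] [Algebra K M]
    [Algebra K B] (s : GalSection K F M B) (l : ℕ) [Fact l.Prime] (θ : ℕ → B) (t : B ≃ₐ[K] B) (z : M)
    (a : ℤ_[l]) : Prop :=
  ∀ (m : ℕ) (j : ℤ), (l : ℤ_[l]) ^ m ∣ (j : ℤ_[l]) - a → ∀ y : M, y ^ l ^ m = z →
    s.s t y = s.j (θ m) ^ j * y

/-- for all `k` some `l ^ k`-th root of `z` is fixed by `s(t)` and `s(f)` -/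
def OneUnit {K F M B : Type} [Field K] [Field F] [Field M] [Field B] [Algebra F M] [Algebra K M]
    [Algebra K B] (s : GalSection K F M B) (l : ℕ) (t f : B ≃ₐ[K] B) (z : M) : Prop :=
  ∀ k : ℕ, ∃ y : M, y ^ l ^ k = z ∧ s.s t y = y ∧ s.s f y = y

/-- **The tame ramification of sections.**

(1) The maximal extension `M` of `F` unramified over `U` contains the roots of order `l ^ m` of its units
over `U`, for all `l` and `m`, and so does every field between `F` and `M` which contains its `l`-th roots
in `M`, such as the maximal geometrically pro-`l` extension of `F` in `M`.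

(2) Let `l` be a prime number, `M` an algebraic extension of `F` which contains all roots of order `l ^ m`
of its units over `U`, `s` a section of `Gal(M/F) → Gal(B/K)`, `V` a valuation ring of `B`, `p ≠ l` a prime
number in its maximal ideal, `t` an inertia element and `f` a Frobenius element of `V` with exponent `q ≥ 2`, and let `z`, fixed
by `s`, and `1 - z` be nonzero and units over `U`. Then `s(t)` acts on the roots of `z` and `1 - z` by
`l`-adic integers `a` and `b`, and `a = b = 0`, or `a ≠ 0`, `b = 0` and `1 - z` is a one-unit for `s`, or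
`a = 0`, `b ≠ 0` and `z` is one, or `a = b ≠ 0` and `1 - 1/z` is one. -/
theorem result :
    (∀ (K F Ω M : Type) [Field K] [Field F] [Field Ω] [Field M]
      [Algebra K F] [Algebra F Ω] [Algebra K Ω] [IsScalarTower K F Ω] [IsAlgClosed Ω]
      [Algebra F M] (U : Set (ValuationSubring F)), (∀ O ∈ U, ∀ c : K, algebraMap K F c ∈ O) →
      ∀ e : M →ₐ[F] Ω, Pool.Agent.W620.SC.unramified F Ω U = e.fieldRange → ∀ l : ℕ, 0 < l →
        RootClosed l M U ∧
          ∀ E : IntermediateField F M, (∀ x : M, x ^ l ∈ E → x ∈ E) → RootClosed l E U) ∧
    ∀ (K F M B : Type) [Field K] [CharZero K] [Field F] [Field M] [Field B]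
      [Algebra K F] [Algebra F M] [Algebra K M] [IsScalarTower K F M] [Algebra.IsAlgebraic F M]
      [Algebra K B] [IsAlgClosure K B]
      (U : Set (ValuationSubring F)), (∀ O ∈ U, ∀ c : K, algebraMap K F c ∈ O) →
      ∀ (s : GalSection K F M B) (V : ValuationSubring B) (p l q : ℕ) [Fact l.Prime],
        RootClosed l M U → p.Prime → p ≠ l → 2 ≤ q → (p : B) ∈ V.nonunits →
      ∀ t f : B ≃ₐ[K] B, Inertia V t → Frob V q f →
      ∀ θ : ℕ → B, (∀ m, IsPrimitiveRoot (θ m) (l ^ m)) → (∀ m, θ (m + 1) ^ l = θ m) →
      ∀ z : M, z ≠ 0 → z ≠ 1 → UnitOver U z → UnitOver U (1 - z) → (∀ g, s.s g z = z) →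
        ∃ a b : ℤ_[l], ActsBy s l θ t z a ∧ ActsBy s l θ t (1 - z) b ∧
          ((a = 0 ∧ b = 0) ∨ (a ≠ 0 ∧ b = 0 ∧ OneUnit s l t f (1 - z)) ∨
            (a = 0 ∧ b ≠ 0 ∧ OneUnit s l t f z) ∨
            (a ≠ 0 ∧ a = b ∧ OneUnit s l t f (1 - z⁻¹))) := by
  refine ⟨fun K F Ω M _ _ _ _ _ _ _ _ _ _ U hU e he l hl => ?_,
    fun K F M B _ _ _ _ _ _ _ _ _ _ _ _ U hU s V p l q _ hR hp hpl hq hpV t f ht hf θ hθ hθ' z hz0
      hz1 hz hz' hfix => ?_⟩
  · have h1 : Pool.Agent.U36.TS.RootClosedAt l M U := fun a ha haU m =>
      Pool.Agent.U36.SC.root_unram U hU e he a ha haU (l ^ m) (pow_pos hl m)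
    exact ⟨h1, fun E hE => h1.sub E hE⟩
  · exact Pool.Agent.U36.TS.main4_all K F M B U hU s V p l q hR hp hpl hq hpV t f ht hf
      (Pool.Agent.U36.TS.re_all K B V q t f ht hf) θ hθ hθ' z hz0 hz1 hz hz' hfix

end Pool.Agent.Results.MP_c385f6_ag.TameRamificationOfSections
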